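import Pool.Agent.Helper3.WA.Defs

/-! Project WA, piece WA-24: the upper bound of the representation function. -/

set_option autoImplicit false

namespace Pool.Agent.Helper41.WA

open Finset Filter
open Pool.Agent.Helper48.ET
open Pool.Agent.Helper3.WT (rp GG P0)
open Pool.Agent.Helper3.WA

section core

variable (σ : SysA)

theorem p_pos (k : ℕ) : 1 ≤ σ.p k := by
  have h1 := (σ.comp k).lab_le
  have h2 := (σ.comp k).two_le
  have h3 := (σ.comp k).beta_pos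
  have h4 : 1 ≤ σ.M k * σ.β k := Nat.one_le_iff_ne_zero.2 (Nat.mul_ne_zero (by omega) (by omega))
  nlinarith

theorem fac_ge (k : ℕ) : 2 ≤ (2 * σ.p k) ^ (2 * σ.M k) := by
  have h1 : 1 ≤ σ.p k := p_pos σ k
  have h2 : 2 ≤ σ.M k := (σ.comp k).two_le
  calc 2 ≤ 2 * σ.p k := by omega
    _ = (2 * σ.p k) ^ 1 := (pow_one _).symm
    _ ≤ (2 * σ.p k) ^ (2 * σ.M k) := Nat.pow_le_pow_right (by omega) (by omega)

theorem W_succ (k : ℕ) : σ.W (k + 1) = σ.W k * (2 * σ.p k) ^ (2 * σ.M k) := by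
  unfold SysA.W; rw [prod_range_succ]

theorem W_pos' (k : ℕ) : 1 ≤ σ.W k := by
  induction k with
  | zero => simp [SysA.W]
  | succ k ih =>
    rw [W_succ]
    exact Nat.one_le_iff_ne_zero.2 (Nat.mul_ne_zero (by omega) (by have := fac_ge σ k; omega))

theorem W_lt (k : ℕ) : σ.W k < σ.W (k + 1) := by
  rw [W_succ]
  have h1 := W_pos' σ k
  have h2 := fac_ge σ k
  nlinarith

theorem W_strict : StrictMono σ.W := strictMono_nat_of_lt_succ (W_lt σ)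

theorem exists_level {K0 m : ℕ} (hm : σ.W K0 ≤ m) :
    ∃ K, K0 ≤ K ∧ σ.W K ≤ m ∧ m < σ.W (K + 1) := by
  have hex : ∃ k, m < σ.W k := ⟨m + 1, lt_of_lt_of_le (Nat.lt_succ_self m)
    ((W_strict σ).id_le (m + 1))⟩
  classical
  have h1 := Nat.find_spec hex
  have hpos : K0 < Nat.find hex := by
    by_contra h
    push Not at h
    have := (W_strict σ).monotone h
    omega
  refine ⟨Nat.find hex - 1, by omega, ?_, ?_⟩
  · have := Nat.find_min hex (m := Nat.find hex - 1) (by omega)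
    omega
  · rw [show Nat.find hex - 1 + 1 = Nat.find hex by omega]; exact h1

theorem log_ge {d j : ℕ → ℕ} (hM : ∀ k, σ.M k = 2 ^ (j (k + 1) - d k))
    (hp : ∀ k, 2 ^ 2 ^ d k < σ.p k) (hd : ∀ k, d k ≤ j (k + 1)) {K m : ℕ} (hK : 1 ≤ K)
    (hm : σ.W K ≤ m) : (2 : ℝ) ^ (j K) ≤ Real.log m := by
  obtain ⟨k, rfl⟩ : ∃ k, K = k + 1 := ⟨K - 1, by omega⟩
  have h1 : (2 * σ.p k) ^ (2 * σ.M k) ≤ m := by
    refine le_trans ?_ hm
    rw [W_succ]
    exact Nat.le_mul_of_pos_left _ (W_pos' σ k)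
  have h2 : ((2 : ℝ)) ^ (2 * 2 ^ j (k + 1)) ≤ (m : ℝ) := by
    have h3 : 2 * 2 ^ j (k + 1) = 2 ^ d k * (2 * σ.M k) := by
      rw [hM k]
      have : 2 ^ d k * 2 ^ (j (k + 1) - d k) = 2 ^ j (k + 1) := by
        rw [← pow_add, Nat.add_sub_cancel' (hd k)]
      calc 2 * 2 ^ j (k + 1) = 2 * (2 ^ d k * 2 ^ (j (k + 1) - d k)) := by rw [this]
        _ = _ := by ring
    have : (2 : ℕ) ^ (2 * 2 ^ j (k + 1)) ≤ m := by
      refine le_trans ?_ h1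
      rw [h3, pow_mul]
      exact Nat.pow_le_pow_left (by have := hp k; omega) _
    exact_mod_cast this
  have h3 : Real.log ((2 : ℝ) ^ (2 * 2 ^ j (k + 1))) ≤ Real.log m :=
    Real.log_le_log (by positivity) h2
  rw [Real.log_pow] at h3
  have h4 : (1 : ℝ) ≤ 2 * Real.log 2 := by
    have := Real.log_two_gt_d9
    linarith
  push_cast at h3
  have h6 : (0 : ℝ) < (2 : ℝ) ^ (j (k + 1)) := by positivity
  nlinarith

theorem prod_G {c : ℝ} {K : ℕ}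
    (h : ∑ i ∈ range (K + 1), Real.logb 2 (σ.G i : ℝ) ≤ c) :
    ((∏ i ∈ range (K + 1), σ.G i : ℕ) : ℝ) ≤ (2 : ℝ) ^ c := by
  have hpos : ∀ j, (0 : ℝ) < (σ.G j : ℝ) := fun j => by
    have := (σ.comp j).G_pos
    exact_mod_cast this
  have h1 : ((∏ i ∈ range (K + 1), σ.G i : ℕ) : ℝ) =
      (2 : ℝ) ^ (∑ i ∈ range (K + 1), Real.logb 2 (σ.G i : ℝ)) := by
    rw [Real.rpow_sum_of_pos (by norm_num)]
    push_cast
    refine prod_congr rfl fun j _ => ?_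
    rw [Real.rpow_logb (by norm_num) (by norm_num) (hpos j)]
  rw [h1]
  exact Real.rpow_le_rpow_of_exponent_le (by norm_num) h

/-- the bound for `H` -/
theorem H_le {α : ℝ} (h0 : 0 < α) (h1 : α ≤ 1 / 2) {x : ℕ} (hx : 4 ≤ ⌊α * x⌋₊) :
    ((16 * (2 ^ ⌈(1 - α) * x⌉₊ / 2 ^ (⌊α * x⌋₊ - 1)) + 32 : ℕ) : ℝ) ≤
      160 * (2 : ℝ) ^ ((1 - 2 * α) * x) := by
  have hx0 : (0 : ℝ) ≤ x := Nat.cast_nonneg x
  have ha : (⌈(1 - α) * (x : ℝ)⌉₊ : ℝ) ≤ (1 - α) * x + 1 :=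
    (Nat.ceil_lt_add_one (mul_nonneg (by linarith) hx0)).le
  have hb : α * x - 1 ≤ (⌊α * (x : ℝ)⌋₊ : ℝ) := (Nat.sub_one_lt_floor _).le
  set a := ⌈(1 - α) * (x : ℝ)⌉₊ with hadef
  set b := ⌊α * (x : ℝ)⌋₊ with hbdef
  have h2 : ((2 ^ a / 2 ^ (b - 1) : ℕ) : ℝ) ≤ (2 : ℝ) ^ ((1 - 2 * α) * x + 3) := by
    refine le_trans Nat.cast_div_le ?_
    push_cast
    rw [div_le_iff₀ (by positivity), ← Real.rpow_natCast 2 (b - 1), ← Real.rpow_add (by norm_num),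
      ← Real.rpow_natCast 2 a]
    refine Real.rpow_le_rpow_of_exponent_le (by norm_num) ?_
    rw [Nat.cast_sub (by omega)]
    push_cast
    linarith
  have h3 : (1 : ℝ) ≤ (2 : ℝ) ^ ((1 - 2 * α) * x) :=
    Real.one_le_rpow (by norm_num) (mul_nonneg (by linarith) hx0)
  have h4 : (2 : ℝ) ^ ((1 - 2 * α) * x + 3) = 8 * (2 : ℝ) ^ ((1 - 2 * α) * x) := by
    rw [Real.rpow_add (by norm_num), mul_comm]
    congr 1
    rw [show (3 : ℝ) = ((3 : ℕ) : ℝ) by norm_num, Real.rpow_natCast]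
    norm_num
  rw [h4] at h2
  rw [Nat.cast_add, Nat.cast_mul]
  push_cast at h2 ⊢
  linarith

end core

/-- WA-24 (as the stub; `SizedA` is the shared structure of `Helper3/WA/Defs.lean`) -/
theorem upper {α : ℝ} (h0 : 0 < α) (h1 : α ≤ 1 / 2) {σ : SysA} {j : ℕ → ℕ} (hs : SizedA α σ j)
    (hG : ∀ e : ℝ, 0 < e → ∀ᶠ k in atTop,
      ∑ i ∈ range (k + 1), Real.logb 2 (σ.G i : ℝ) ≤ e * j k)
    (hrep : ∀ K n h, n < σ.W (K + 1) → (∀ i ≤ K, σ.H i ≤ h) →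
      rp σ.A σ.A n ≤ 4 * (K + 1) * (∏ i ∈ range (K + 1), σ.G i) * h) :
    ∀ e : ℝ, 0 < e → ∀ᶠ m : ℕ in atTop, (rp σ.A σ.A m : ℝ) ≤ Real.log m ^ (1 - 2 * α + e) := by
  intro e he
  have hmono : StrictMono j := strictMono_nat_of_lt_succ hs.mono
  obtain ⟨K1, hK1⟩ := eventually_atTop.1 (hG (e / 4) (by positivity))
  have hr1 : (1 : ℝ) < (2 : ℝ) ^ (e / 2) := Real.one_lt_rpow (by norm_num) (by positivity)
  have htend := tendsto_pow_const_div_const_pow_of_one_lt 1 hr1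
  obtain ⟨K2, hK2⟩ := eventually_atTop.1 (htend.eventually_le_const
    (show (0 : ℝ) < 1 / 1280 by norm_num))
  set K0 := max (max K1 K2) 1 with hK0
  have hd : ∀ k, ⌈(1 - α) * (j k : ℝ)⌉₊ ≤ j (k + 1) := by
    intro k
    have h2 : ⌈(1 - α) * (j k : ℝ)⌉₊ ≤ j k := by
      rw [Nat.ceil_le]
      have : (0 : ℝ) ≤ j k := Nat.cast_nonneg _
      nlinarith
    exact h2.trans (hs.mono k).le
  refine eventually_atTop.2 ⟨σ.W K0, fun m hm => ?_⟩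
  obtain ⟨K, hKK, hWm, hmW⟩ := exists_level σ hm
  have hK1K : K1 ≤ K := by omega
  have hK2K : K2 ≤ K := by omega
  have h1K : 1 ≤ K := by omega
  have hlog := log_ge σ hs.M_eq hs.p_gt hd h1K hWm
  have hprod := prod_G σ (hK1 K hK1K)
  have hKj : K ≤ j K := hmono.id_le K
  set y : ℝ := (j K : ℝ) with hy
  have hy0 : 0 ≤ y := Nat.cast_nonneg _
  set h := ⌊160 * (2 : ℝ) ^ ((1 - 2 * α) * y)⌋₊ with hh
  have hHle : ∀ i ≤ K, σ.H i ≤ h := by
    intro i hi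
    rw [hh]
    refine Nat.le_floor ?_
    rw [hs.H_eq i]
    refine (H_le h0 h1 (hs.lam i)).trans ?_
    refine mul_le_mul_of_nonneg_left ?_ (by norm_num)
    refine Real.rpow_le_rpow_of_exponent_le (by norm_num) ?_
    refine mul_le_mul_of_nonneg_left ?_ (by linarith)
    rw [hy]
    exact_mod_cast hmono.monotone hi
  have hhle : (h : ℝ) ≤ 160 * (2 : ℝ) ^ ((1 - 2 * α) * y) := Nat.floor_le (by positivity)
  have hr : (rp σ.A σ.A m : ℝ) ≤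
      4 * ((K : ℝ) + 1) * ((∏ i ∈ range (K + 1), σ.G i : ℕ) : ℝ) * (h : ℝ) := by
    have := hrep K m h hmW hHle
    exact_mod_cast this
  have hgrow : 640 * ((K : ℝ) + 1) ≤ (2 : ℝ) ^ ((e / 2) * y) := by
    have h5 := hK2 (j K) (hK2K.trans hKj)
    rw [pow_one, div_le_iff₀ (by positivity)] at h5
    have h6 : (2 : ℝ) ^ ((e / 2) * y) = ((2 : ℝ) ^ (e / 2)) ^ (j K) := by
      rw [Real.rpow_mul (by norm_num), hy, Real.rpow_natCast]
    rw [h6]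
    have h7 : (K : ℝ) ≤ (j K : ℝ) := by exact_mod_cast hKj
    have h8 : (1 : ℝ) ≤ (K : ℝ) := by exact_mod_cast h1K
    nlinarith
  have hlogpos : (0 : ℝ) ≤ (2 : ℝ) ^ (j K) := by positivity
  calc (rp σ.A σ.A m : ℝ)
      ≤ 4 * ((K : ℝ) + 1) * ((∏ i ∈ range (K + 1), σ.G i : ℕ) : ℝ) * (h : ℝ) := hr
    _ ≤ 4 * ((K : ℝ) + 1) * (2 : ℝ) ^ ((e / 4) * y) * (160 * (2 : ℝ) ^ ((1 - 2 * α) * y)) := by
        gcongr
    _ = (640 * ((K : ℝ) + 1)) * ((2 : ℝ) ^ ((e / 4) * y) * (2 : ℝ) ^ ((1 - 2 * α) * y)) := by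
        ring
    _ ≤ (2 : ℝ) ^ ((e / 2) * y) * ((2 : ℝ) ^ ((e / 4) * y) * (2 : ℝ) ^ ((1 - 2 * α) * y)) := by
        exact mul_le_mul_of_nonneg_right hgrow (by positivity)
    _ = (2 : ℝ) ^ ((e / 2) * y + ((e / 4) * y + (1 - 2 * α) * y)) := by
        rw [Real.rpow_add (by norm_num), Real.rpow_add (by norm_num)]
    _ ≤ (2 : ℝ) ^ (y * (1 - 2 * α + e)) := by
        refine Real.rpow_le_rpow_of_exponent_le (by norm_num) ?_
        nlinarith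
    _ = ((2 : ℝ) ^ (j K)) ^ (1 - 2 * α + e) := by
        rw [Real.rpow_mul (by norm_num), hy, Real.rpow_natCast]
    _ ≤ Real.log m ^ (1 - 2 * α + e) := Real.rpow_le_rpow hlogpos hlog (by linarith)

end Pool.Agent.Helper41.WA
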